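import Pool.Agent.W566.MZ.Stmts

/-! # Parts K1 and K2 : the Kummer tower is Galois and pro-2 -/

set_option autoImplicit false

namespace Pool.Agent.W343.MZ

open _root_.MZ

variable {L Ω : Type} [Field L] [Field Ω] [Algebra L Ω]

lemma kumClosed_Linf (L Ω : Type) [Field L] [Field Ω] [Algebra L Ω] :
    KumClosed (Linf L Ω) := by
  intro x y hx hu hy
  rw [Linf, IntermediateField.mem_sInf] at hx ⊢
  intro M hM
  exact hM x y (hx M hM) hu hy

lemma Linf_le {M : IntermediateField L Ω} (hM : KumClosed M) : Linf L Ω ≤ M := by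
  intro x hx
  rw [Linf, IntermediateField.mem_sInf] at hx
  exact hx M hM

lemma TwoUnit.map {K Ω' : Type} [Field K] [Field Ω'] (f : K →+* Ω') {x : K} (h : TwoUnit x) :
    TwoUnit (f x) := by
  obtain ⟨h0, n, h1, h2⟩ := h
  refine ⟨?_, n, ?_, ?_⟩
  · exact (map_ne_zero f).2 h0
  · have h := h1.map (f.toIntAlgHom)
    have e : f.toIntAlgHom (2 ^ n * x) = 2 ^ n * f x := by
      change f (2 ^ n * x) = 2 ^ n * f x
      rw [map_mul, map_pow, map_ofNat]
    rwa [e] at h
  · have h := h2.map (f.toIntAlgHom)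
    have e : f.toIntAlgHom (2 ^ n * x⁻¹) = 2 ^ n * (f x)⁻¹ := by
      change f (2 ^ n * x⁻¹) = 2 ^ n * (f x)⁻¹
      rw [map_mul, map_pow, map_ofNat, map_inv₀]
    rwa [e] at h

/-- The preimage of `M` under an automorphism stabilising `L`. -/
def pre (M : IntermediateField L Ω) (f : Ω →+* Ω)
    (hf : ∀ l : L, f (algebraMap L Ω l) ∈ M) : IntermediateField L Ω where
  carrier := {x | f x ∈ M}
  mul_mem' := by
    intro a b ha hb
    simp only [Set.mem_ofPred_eq, map_mul] at *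
    exact mul_mem ha hb
  one_mem' := by simp
  add_mem' := by
    intro a b ha hb
    simp only [Set.mem_ofPred_eq, map_add] at *
    exact add_mem ha hb
  zero_mem' := by simp
  algebraMap_mem' := hf
  inv_mem' := by
    intro a ha
    simp only [Set.mem_ofPred_eq, map_inv₀] at *
    exact inv_mem ha

lemma mem_pre {M : IntermediateField L Ω} {f : Ω →+* Ω}
    {hf : ∀ l : L, f (algebraMap L Ω l) ∈ M} {x : Ω} : x ∈ pre M f hf ↔ f x ∈ M := Iff.rfl

lemma pre_closed {M : IntermediateField L Ω} (hM : KumClosed M) {f : Ω →+* Ω}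
    {hf : ∀ l : L, f (algebraMap L Ω l) ∈ M} : KumClosed (pre M f hf) := by
  intro x y hx hu hy
  rw [mem_pre] at hx ⊢
  exact hM (f x) (f y) hx (TwoUnit.map f hu) (by rw [← map_pow, hy])

theorem stmK1 : StmK1 := by
  refine ⟨fun L Ω _ _ _ => kumClosed_Linf L Ω, ?_⟩
  intro F L Ω _ _ _ _ _ _ _ _ _ _ hFL
  have hLn : Normal F L := hFL.to_normal
  have : Algebra.IsAlgebraic L Ω := IsAlgClosure.isAlgebraic
  have : IsAlgClosed Ω := IsAlgClosure.isAlgClosed L
  have : Algebra.IsAlgebraic F L := inferInstance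
  have : Algebra.IsAlgebraic F Ω := Algebra.IsAlgebraic.trans F L Ω
  have : Normal F Ω := by
    rw [normal_iff]
    intro x
    exact ⟨Algebra.IsIntegral.isIntegral x, IsAlgClosed.splits _⟩
  let K : IntermediateField F Ω := (Linf L Ω).restrictScalars F
  have hK : Normal F K := by
    rw [IntermediateField.normal_iff_forall_map_le]
    intro σ
    rw [IntermediateField.map_le_iff_le_comap]
    intro x hx
    have hx' : x ∈ Linf L Ω := hx
    change σ x ∈ Linf L Ω
    rw [Linf, IntermediateField.mem_sInf]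
    intro M hM
    have hf : ∀ l : L, (σ : Ω →+* Ω) (algebraMap L Ω l) ∈ M := by
      intro l
      have := AlgHom.restrictNormal_commutes σ L l
      change σ (algebraMap L Ω l) ∈ M
      rw [← this]
      exact M.algebraMap_mem _
    have := Linf_le (pre_closed (f := (σ : Ω →+* Ω)) (hf := hf) hM) hx'
    exact this
  have hK' : Normal F (Linf L Ω) := hK
  have : Algebra.IsAlgebraic F (Linf L Ω) := hK'.toIsAlgebraic
  exact ⟨⟩

/-- if `g^(2^e)` fixes `x` so does `g^(2^(e+f))` -/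
lemma fix_mono {K : Type} [Field K] [Algebra L K] (g : Gal(K/L)) {x : K} {e : ℕ}
    (h : (g ^ (2 ^ e)) x = x) {f : ℕ} (hf : e ≤ f) : (g ^ (2 ^ f)) x = x := by
  obtain ⟨d, rfl⟩ := Nat.exists_eq_add_of_le hf
  rw [pow_add, pow_mul]
  generalize g ^ (2 ^ e) = u at h
  generalize 2 ^ d = m
  induction m with
  | zero => rfl
  | succ m ih => rw [pow_succ, AlgEquiv.mul_apply, h, ih]

/-- elements fixed by some `g^(2^e)` -/
def Mg (g : Gal((Linf L Ω)/L)) : IntermediateField L Ω where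
  carrier := {x | ∃ h : x ∈ Linf L Ω, ∃ e : ℕ, (g ^ (2 ^ e)) ⟨x, h⟩ = ⟨x, h⟩}
  mul_mem' := by
    rintro a b ⟨ha, e, he⟩ ⟨hb, f, hf⟩
    refine ⟨mul_mem ha hb, e + f, ?_⟩
    have h1 := fix_mono g he (Nat.le_add_right e f)
    have h2 := fix_mono g hf (Nat.le_add_left f e)
    have h := map_mul (g ^ (2 ^ (e + f))) (⟨a, ha⟩ : Linf L Ω) ⟨b, hb⟩
    rw [h1, h2] at h
    exact h
  one_mem' := by
    refine ⟨one_mem _, 0, ?_⟩
    exact map_one _
  add_mem' := by
    rintro a b ⟨ha, e, he⟩ ⟨hb, f, hf⟩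
    refine ⟨add_mem ha hb, e + f, ?_⟩
    have h1 := fix_mono g he (Nat.le_add_right e f)
    have h2 := fix_mono g hf (Nat.le_add_left f e)
    have h := map_add (g ^ (2 ^ (e + f))) (⟨a, ha⟩ : Linf L Ω) ⟨b, hb⟩
    rw [h1, h2] at h
    exact h
  zero_mem' := ⟨zero_mem _, 0, map_zero _⟩
  algebraMap_mem' := by
    intro l
    exact ⟨(Linf L Ω).algebraMap_mem l, 0, (g ^ (2 ^ 0)).commutes l⟩
  inv_mem' := by
    rintro a ⟨ha, e, he⟩
    refine ⟨inv_mem ha, e, ?_⟩
    have h := map_inv₀ (g ^ (2 ^ e)) (⟨a, ha⟩ : Linf L Ω)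
    rw [he] at h
    exact h

lemma Mg_closed (g : Gal((Linf L Ω)/L)) : KumClosed (Mg g) := by
  rintro x y ⟨hx, e, he⟩ hu hy
  have hyL : y ∈ Linf L Ω := kumClosed_Linf L Ω x y hx hu hy
  refine ⟨hyL, e + 1, ?_⟩
  have hsq : ((g ^ (2 ^ e)) (⟨y, hyL⟩ : Linf L Ω)) ^ 2 = (⟨y, hyL⟩ : Linf L Ω) ^ 2 := by
    rw [← map_pow]
    have h2 : (⟨y, hyL⟩ : Linf L Ω) ^ 2 = ⟨x, hx⟩ := Subtype.ext hy
    rw [h2, he]
  rw [pow_succ, pow_mul, pow_two, AlgEquiv.mul_apply]
  rcases sq_eq_sq_iff_eq_or_eq_neg.1 hsq with h | h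
  · rw [h, h]
  · rw [h, map_neg, h, neg_neg]

lemma exists_fix (g : Gal((Linf L Ω)/L)) (x : Linf L Ω) : ∃ e : ℕ, (g ^ (2 ^ e)) x = x := by
  obtain ⟨_, e, he⟩ := Linf_le (Mg_closed g) x.2
  exact ⟨e, he⟩

theorem stmK2 : StmK2 := by
  intro L Ω _ _ _ _ _ N hN hopen
  have hgal : IsGalois L (Linf L Ω) := stmK1.2 L L Ω inferInstance
  have hfin : Finite (Gal((Linf L Ω)/L) ⧸ N) := Subgroup.quotient_finite_of_isOpen N hopen
  have hp : IsPGroup 2 (Gal((Linf L Ω)/L) ⧸ N) := by
    intro q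
    obtain ⟨g, rfl⟩ := QuotientGroup.mk_surjective q
    obtain ⟨E, hE, hEN⟩ := (krullTopology_mem_nhds_one_iff L (Linf L Ω)
      (N : Set Gal((Linf L Ω)/L))).1 (hopen.mem_nhds N.one_mem)
    have hall : ∀ s : Finset (Linf L Ω), ∃ e : ℕ, ∀ x ∈ s, (g ^ (2 ^ e)) x = x := by
      intro s
      classical
      induction s using Finset.induction_on with
      | empty => exact ⟨0, by simp⟩
      | insert a s _ ih =>
        obtain ⟨e, he⟩ := ih
        obtain ⟨f, hf⟩ := exists_fix g a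
        refine ⟨e + f, ?_⟩
        intro x hx
        rcases Finset.mem_insert.1 hx with rfl | hx
        · exact fix_mono g hf (Nat.le_add_left f e)
        · exact fix_mono g (he x hx) (Nat.le_add_right e f)
    obtain ⟨s, hs⟩ := IntermediateField.essFiniteType_iff.1
      (inferInstance : Algebra.EssFiniteType L E)
    obtain ⟨e, he⟩ := hall s
    refine ⟨e, ?_⟩
    rw [← QuotientGroup.mk_pow, QuotientGroup.eq_one_iff]
    apply hEN
    change g ^ 2 ^ e ∈ E.fixingSubgroup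
    rw [← hs, IntermediateField.mem_fixingSubgroup_iff]
    intro x hx
    have hle : IntermediateField.adjoin L (s : Set (Linf L Ω)) ≤
        IntermediateField.fixedField (Subgroup.zpowers (g ^ (2 ^ e))) := by
      rw [IntermediateField.adjoin_le_iff]
      intro y hy
      have hy' : (g ^ (2 ^ e)) y = y := he y hy
      change y ∈ IntermediateField.fixedField (Subgroup.zpowers (g ^ (2 ^ e)))
      rw [IntermediateField.mem_fixedField_iff]
      intro f hf
      have h3 : Subgroup.zpowers (g ^ (2 ^ e)) ≤ MulAction.stabilizer Gal((Linf L Ω)/L) y := by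
        rw [Subgroup.zpowers_le]
        exact hy'
      exact h3 hf
    exact (IntermediateField.mem_fixedField_iff _ _).1 (hle hx) _
      (Subgroup.mem_zpowers _)
  exact IsPGroup.iff_card.1 hp


end Pool.Agent.W343.MZ
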